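import Pool.Agent.Flea.Lnk
import Pool.Agent.FleaU.EffMain
import Pool.Agent.FleaU.EffRoot

/-! # MP_fb7c71_nt: the fleas, with a constant which is polynomial in the size of the triangle -/

set_option autoImplicit false

namespace Pool.Agent.FleaV

open Finset Pool.Agent.Flea Pool.Agent.FleaU

/-- the first pair is `(B - A, -(I * (C - B)))` -/
theorem pairs_start_eq {A B C : G} (h0 : area2 A B C ≠ 0)
    (hprim : ∀ z c : G, 1 < c.norm → ¬ (c ∣ A - z ∧ c ∣ B - z ∧ c ∣ C - z)) :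
    Pairs A B C (B - A) (-(I * (C - B))) ∧ IsCoprime (B - A) (-(I * (C - B))) ∧ -(I * (C - B)) ≠ 0 := by
  have hI : I * I = (-1 : G) := by
    apply ext' <;> simp [I]
  have hb : I * (-(I * (C - B))) = C - B := by
    linear_combination -(C - B) * hI
  have hBA : B - A ≠ 0 := by
    intro h
    apply h0
    unfold area2
    rw [h]
    simp
  refine ⟨⟨A, B, C, Relation.ReflTransGen.refl, rfl, hb.symm⟩, ?_, ?_⟩
  · rw [← EuclideanDomain.gcd_isUnit_iff]
    by_contra hu
    have h1 := EuclideanDomain.gcd_dvd_left (B - A) (-(I * (C - B)))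
    have h2 := EuclideanDomain.gcd_dvd_right (B - A) (-(I * (C - B)))
    set c := EuclideanDomain.gcd (B - A) (-(I * (C - B))) with hc
    have hc0 : c ≠ 0 := by
      intro h
      rw [h, zero_dvd_iff] at h1
      exact hBA h1
    have h3 : c ∣ C - B := by
      rw [← hb]
      exact Dvd.dvd.mul_left h2 I
    have hn : 1 < c.norm := by
      have h4 : 0 < c.norm := by
        rw [← N_eq_norm]
        exact N_pos hc0
      have h5 : c.norm ≠ 1 := by
        intro h
        apply hu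
        rw [← Zsqrtd.norm_eq_one_iff, h]
        rfl
      omega
    refine hprim A c hn ⟨?_, h1, ?_⟩
    · rw [sub_self]
      exact dvd_zero c
    · have h6 : C - A = (C - B) + (B - A) := by ring
      rw [h6]
      exact dvd_add h3 h1
  · intro h
    rw [h, mul_zero] at hb
    apply h0
    unfold area2
    have h7 : C - A = B - A := by
      linear_combination -hb
    rw [h7]
    simp only [Zsqrtd.im_mul, Zsqrtd.re_star, Zsqrtd.im_star]
    have h8 : (B - A).re * (B - A).im + -(B - A).im * (B - A).re = 0 := by ring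
    rw [h8]
    rfl

private theorem coord {z : G} {M : ℤ} (hM : 1 ≤ M) (h : N z ≤ M ^ 2) : |z.re| ≤ M ∧ |z.im| ≤ M := by
  unfold N at h
  constructor
  · refine abs_le_of_sq_le_sq (by nlinarith [sq_nonneg z.im]) (by linarith)
  · refine abs_le_of_sq_le_sq (by nlinarith [sq_nonneg z.re]) (by linarith)

open Classical in
/-- **Theorem.** -/
theorem exceptional_eff : ∃ (η c : ℝ) (k : ℕ), 0 < η ∧ 0 < c ∧ ∀ A B C : G, area2 A B C ≠ 0 →
    (∀ z c : G, 1 < c.norm → ¬ (c ∣ A - z ∧ c ∣ B - z ∧ c ∣ C - z)) →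
    ∀ M : ℕ, 1 ≤ M → N (B - A) ≤ (M : ℤ) ^ 2 → N (C - B) ≤ (M : ℤ) ^ 2 → ∀ m X : ℕ, 1 ≤ X →
      ((((range X).filter fun n : ℕ => ¬ Reached A B C (n + m)).card : ℕ) : ℝ) ≤
        c * (M : ℝ) ^ k * (X : ℝ) ^ (1 - η) := by
  obtain ⟨η, C5, k, h0, h1, hC5, hmain⟩ := main_eff
  refine ⟨η, C5 * (7000 * 2 ^ 8) ^ k, 8 * k, h0, by positivity, fun A B C hA hprim M hM hs1 hs2 m X hX => ?_⟩
  obtain ⟨hab, hcop, hb⟩ := pairs_start_eq hA hprim
  have hclo := pairs_clo A B C
  have hM' : (1 : ℤ) ≤ M := by exact_mod_cast hM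
  obtain ⟨e1, e2⟩ := coord hM' hs1
  obtain ⟨e3, e4⟩ := coord hM' hs2
  obtain ⟨a', b', hn, hD⟩ := root_eff hclo hab hcop hb hM' ⟨e1, e2, by
      rw [Zsqrtd.re_neg, re_I_mul, neg_neg]; exact e4, by
      rw [Zsqrtd.im_neg, im_I_mul, abs_neg]; exact e3⟩
  refine le_trans ?_ ((hmain _ hclo a' b' hn m X hX).trans ?_)
  · have : ((range X).filter fun n : ℕ => ¬ Reached A B C (n + m)) ⊆
        ((range X).filter fun n : ℕ => ¬ ∃ v w, Pairs A B C v w ∧ R v w = (n : ℤ) + (m : ℤ)) := by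
      intro n hn
      rw [mem_filter] at hn ⊢
      refine ⟨hn.1, fun ⟨v, w, hvw, hR⟩ => hn.2 (reached_of_pairs hvw ?_)⟩
      rw [hR, Nat.cast_add]
    exact_mod_cast card_le_card this
  · refine mul_le_mul_of_nonneg_right ?_ (by positivity)
    have hpos : (0 : ℝ) ≤ (D a' b' : ℝ) := by exact_mod_cast hn.pos.le
    have hD' : (D a' b' : ℝ) ≤ 7000 * 2 ^ 8 * (M : ℝ) ^ 8 := by
      have : (D a' b' : ℝ) ≤ ((7000 * (2 * (M : ℤ)) ^ 8 : ℤ) : ℝ) := by exact_mod_cast hD
      refine this.trans (le_of_eq ?_)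
      push_cast
      ring
    calc C5 * (D a' b' : ℝ) ^ k ≤ C5 * (7000 * 2 ^ 8 * (M : ℝ) ^ 8) ^ k := by
          refine mul_le_mul_of_nonneg_left ?_ hC5.le
          exact pow_le_pow_left₀ hpos hD' k
      _ = C5 * (7000 * 2 ^ 8) ^ k * (M : ℝ) ^ (8 * k) := by
          rw [mul_pow, pow_mul (M : ℝ) 8 k]
          ring

end Pool.Agent.FleaV
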